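import Mathlib
import Pool.Agent.Y912.IS.Heat

set_option autoImplicit false

namespace Pool.Agent.Results.MP_44d715_an.EveryAdmissibleSystem

open MeasureTheory Set Filter Topology Y912.IS

universe u v

/-- (1) For every real `p ≥ 1` and every linear control system (strongly continuous semigroup on a
real normed space `X`, inputs in a real normed space `U`) whose input maps are `L^p`-admissible,
exponential stability, input-to-state stability and the existence of a coercive ISS Lyapunov
function are equivalent, and the function can be chosen as the `p`-th power of an equivalent norm.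
(2) The heat equation with Dirichlet boundary input is such a system (with `p = 8`) and it is
exponentially stable. (3) Hence it has a coercive ISS Lyapunov function, in the sense of the
starting result, which is the eighth power of an equivalent norm. -/
theorem result :
    (∀ (X : Type u) (U : Type v) [NormedAddCommGroup X] [NormedSpace ℝ X] [NormedAddCommGroup U]
      [NormedSpace ℝ U] (p : ℝ), 1 ≤ p → ∀ G : ControlSystem p X U,
        [ExponentiallyStable G, ISS G, ∃ V : X → ℝ, IsCoerciveISSLyapunov G V,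
          HasLyapunovNorm G].TFAE) ∧
    (∃ G : ControlSystem 8 CoerciveISS.X ℝ, ExponentiallyStable G ∧
      ∀ (t : ℝ) (x : CoerciveISS.X) (u : ℝ → ℝ) (hu : IsInput u), 0 ≤ t →
        G.mild t x u = CoerciveISS.mild t x (MemLp.toLp u hu)) ∧
    ∃ N : CoerciveISS.X → ℝ, IsEquivalentNorm N ∧
      CoerciveISS.IsCoerciveISSLyapunov (fun x => N x ^ 8) := by
  refine ⟨fun X U _ _ _ _ p hp G => tfae hp G,
    ⟨Heat.heat, Heat.heat_expStable, fun t x u hu ht => Heat.heat_mild ht x hu⟩, ?_⟩
  obtain ⟨N, γ, D, hN, hγ, hD, hL, -⟩ :=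
    hasLyapunovNorm_of_expStable (by norm_num) Heat.heat Heat.heat_expStable
  have hpow : ∀ x, N x ^ (8:ℝ) = N x ^ 8 := fun x => by
    rw [← Real.rpow_natCast]
    norm_num
  simp only [hpow] at hL
  refine ⟨N, hN, ?_⟩
  obtain ⟨hc, h0, ψ₁, ψ₂, α, σ, h1, h2, h3, h4, h5, h6⟩ := hL
  have tr : ∀ f : ℝ → ℝ, ClassK f → CoerciveISS.ClassK f := fun f h => ⟨h.zero, h.cont, h.mono⟩
  have tr' : ∀ f : ℝ → ℝ, ClassKInf f → CoerciveISS.ClassKInf f := fun f h =>
    ⟨tr f h.classK, h.unbounded⟩
  refine ⟨hc, h0, ψ₁, ψ₂, α, σ, tr' _ h1, tr' _ h2, tr' _ h3, tr _ h4, h5, ?_⟩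
  intro x u
  have hu : IsInput (u : ℝ → ℝ) := Lp.memLp u
  have h7 := h6 x u hu
  have e1 : inputNorm (u : ℝ → ℝ) = ‖u‖ := by
    rw [inputNorm, Lp.norm_def]
  rw [e1] at h7
  refine le_trans (le_of_eq ?_) h7
  unfold CoerciveISS.lieDerivative lieDerivative
  apply limsup_congr
  filter_upwards [self_mem_nhdsWithin] with h hh
  rw [Heat.heat_mild (mem_Ioi.1 hh).le x hu]
  have e2 : MemLp.toLp (u : ℝ → ℝ) hu = u := Lp.toLp_coeFn u hu
  rw [e2]

end Pool.Agent.Results.MP_44d715_an.EveryAdmissibleSystem
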